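import Pool.Agent.H994R2.CubeAsym

open Filter Topology

/-!
# The second largest component of a sparse random cubical graph (MP_677ad5_pr, Q1)

The definitions (`cube`, `weight`, `prob`, `mp`, `Assertion`, `Question`, `TwoBig`) are in
`Pool/Agent/H994R2/CubeDefs.lean`.

Q1 is false. For every edge probability `p` with `p n → ∞` and `2 n p² ≤ log (n p)` eventually, the
random spanning subgraph `g_n` (the case `p_v = 1`, `p_e = p` of `h_n`) has, with probability
tending to `1`, at least two components with more than `m_p` vertices.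
-/

namespace Pool.Agent.Results.MP_677ad5_pr.SecondComponent

open H994Cube

theorem result :
    ¬ Question ∧
    ∀ p : ℕ → ℝ, (∀ n, 0 < p n ∧ p n ≤ 1) →
      Tendsto (fun n : ℕ => (n : ℝ) * p n) atTop atTop →
      (∀ᶠ n : ℕ in atTop, 2 * ((n : ℝ) * p n ^ 2) ≤ Real.log (n * p n)) →
      Tendsto (fun n => prob n 1 (p n) (TwoBig (mp (p n)))) atTop (𝓝 1) := by
  refine ⟨?_, main⟩
  intro hQ
  -- the sequence `p_v = 1`, `p_e = (n+1)^(-1/2)`
  let p : ℕ → ℝ := fun n => 1 / Real.sqrt ((n : ℝ) + 1)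
  have hs : ∀ n : ℕ, 1 ≤ Real.sqrt ((n : ℝ) + 1) := by
    intro n
    rw [Real.one_le_sqrt]
    have : (0 : ℝ) ≤ n := Nat.cast_nonneg n
    linarith
  have hp : ∀ n, 0 < p n ∧ p n ≤ 1 := by
    intro n
    have := hs n
    have h0 : 0 < Real.sqrt ((n : ℝ) + 1) := by linarith
    refine ⟨by simp only [p]; positivity, ?_⟩
    simp only [p]
    rw [div_le_one h0]
    exact this
  have hsq : Tendsto (fun n : ℕ => Real.sqrt ((n : ℝ) + 1)) atTop atTop :=
    Real.tendsto_sqrt_atTop.comp (tendsto_atTop_add_const_right _ _ tendsto_natCast_atTop_atTop)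
  have hp0 : Tendsto p atTop (𝓝 0) := hsq.const_div_atTop 1
  have hnp : Tendsto (fun n : ℕ => (n : ℝ) * p n) atTop atTop := by
    have h1 : ∀ n : ℕ, Real.sqrt ((n : ℝ) + 1) - 1 ≤ (n : ℝ) * p n := by
      intro n
      have h2 := hs n
      have h0 : 0 < Real.sqrt ((n : ℝ) + 1) := by linarith
      have h3 : Real.sqrt ((n : ℝ) + 1) * Real.sqrt ((n : ℝ) + 1) = n + 1 :=
        Real.mul_self_sqrt (by positivity)
      simp only [p]
      rw [mul_one_div, le_div_iff₀ h0]
      nlinarith
    apply tendsto_atTop_mono h1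
    exact tendsto_atTop_add_const_right _ _ hsq
  have hlog : ∀ᶠ n : ℕ in atTop, 2 * ((n : ℝ) * p n ^ 2) ≤ Real.log (n * p n) := by
    have h4 := (Real.tendsto_log_atTop.comp hnp).eventually_ge_atTop 2
    filter_upwards [h4] with n h4
    refine le_trans ?_ h4
    have h5 : p n ^ 2 = 1 / ((n : ℝ) + 1) := by
      simp only [p]
      rw [div_pow, Real.sq_sqrt (by positivity), one_pow]
    rw [h5, mul_one_div]
    have h6 : (n : ℝ) / (n + 1) ≤ 1 := by
      rw [div_le_one (by positivity)]
      linarith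
    linarith
  have h1 : Tendsto (fun n => (fun _ : ℕ => (1 : ℝ)) n * p n) atTop (𝓝 0) := by
    simpa using hp0
  have h2 : Tendsto (fun n : ℕ => (n : ℝ) * ((fun _ : ℕ => (1 : ℝ)) n * p n)) atTop atTop := by
    simpa using hnp
  obtain ⟨ε, _, hlim⟩ := hQ (fun _ => 1) p (fun _ => ⟨one_pos, le_refl _⟩) hp h1 h2
  have hmain := main p hp hnp hlog
  have hle : ∀ n, prob n 1 (p n) (Assertion (mp (p n)) (ε n))
      ≤ 1 - prob n 1 (p n) (TwoBig (mp (p n))) := by
    intro n
    rw [← prob_not]
    exact prob_mono (hp n).1.le (hp n).2 (fun H hH => not_twoBig_of_assertion hH)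
  have hlim' : Tendsto (fun n => prob n 1 (p n) (Assertion (mp (p n)) (ε n))) atTop (𝓝 1) := by
    simpa using hlim
  have hle' := le_of_tendsto_of_tendsto' hlim' (hmain.const_sub 1) hle
  norm_num at hle'

end Pool.Agent.Results.MP_677ad5_pr.SecondComponent
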